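import Pool.Agent.H11.PS1

set_option autoImplicit false

namespace Pool.Agent.Results.MP_76b05e_lc.PspaceHard
open Pool.Agent.H11.PT

/-- transition function read from a table: row `q`, column `a` -/
def delta (tb : List (List ℕ)) (q a : ℕ) : ℕ := (tb.getD q []).getD a 0

/-- REACHABLE SUBSET_k: the instance `(n, m, tb, P)` is a complete DFA with states `0..n-1`,
letters `0..m-1` and table `tb`, `P` lists `k` distinct states, and `P = Q.w` for some word `w`. -/
def ReachSub (k : ℕ) (y : ℕ × ℕ × List (List ℕ) × List ℕ) : Prop :=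
  (∀ q < y.1, ∀ a < y.2.1, delta y.2.2.1 q a < y.1) ∧
  y.2.2.2.Nodup ∧ y.2.2.2.length = k ∧ (∀ p ∈ y.2.2.2, p < y.1) ∧
  ∃ w : List ℕ, (∀ a ∈ w, a < y.2.1) ∧
    ∀ p, p ∈ y.2.2.2 ↔ ∃ q < y.1, w.foldl (delta y.2.2.1) q = p

def a0 : Aut := ([], 0, [])

def dd (k n m : ℕ) (As : List Aut) (x a : ℕ) : ℕ :=
  if x = 2 then (if a = m + 1 then 1 else 2)
  else if x < 4 then 0
  else if x < k + 2 then x
  else if a < m then k + 2 + ((x - (k + 2)) / n * n +
    dl (As.getD ((x - (k + 2)) / n) a0).1 ((x - (k + 2)) % n) a)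
  else if a = m then k + 2 + ((x - (k + 2)) / n * n + (As.getD ((x - (k + 2)) / n) a0).2.1)
  else if (x - (k + 2)) % n ∈ (As.getD ((x - (k + 2)) / n) a0).2.2 then 0 else 3

def red (k : ℕ) (y : ℕ × ℕ × List Aut) : ℕ × ℕ × List (List ℕ) × List ℕ :=
  (k + 2 + y.2.2.length * y.1, y.2.1 + 2,
    mkT (k + 2 + y.2.2.length * y.1) (y.2.1 + 2) (dd k y.1 y.2.1 y.2.2),
    0 :: 1 :: (List.range (k - 2)).map (· + 4))

theorem red_pt (k : ℕ) : PT (red k) := by
  unfold red mkT dd dl
  fun_prop

section
variable {k n m : ℕ} {As : List Aut} (hk : 2 ≤ k) (hv : DVal (n, m, As))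

theorem dd_st {i q : ℕ} (hq : q < n) (hk : 2 ≤ k) (a : ℕ) : dd k n m As (k + 2 + (i * n + q)) a =
    if a < m then k + 2 + (i * n + dl (As.getD i a0).1 q a)
    else if a = m then k + 2 + (i * n + (As.getD i a0).2.1)
    else if q ∈ (As.getD i a0).2.2 then 0 else 3 := by
  rw [dd, if_neg (by omega), if_neg (by omega), if_neg (by omega), Nat.add_sub_cancel_left,
    code_div hq, code_mod hq]

theorem decomp {x : ℕ} (h1 : k + 2 ≤ x) (h2 : x < k + 2 + As.length * n) :
    ∃ i < As.length, ∃ q < n, x = k + 2 + (i * n + q) := by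
  have hn : 0 < n := by
    rcases Nat.eq_zero_or_pos n with h | h
    · subst h; omega
    · exact h
  refine ⟨(x - (k + 2)) / n, (Nat.div_lt_iff_lt_mul hn).2 (by omega), (x - (k + 2)) % n,
    Nat.mod_lt _ hn, ?_⟩
  have := Nat.div_add_mod' (x - (k + 2)) n
  omega

theorem getD_mem {i : ℕ} (hi : i < As.length) : As.getD i a0 ∈ As := by
  rw [List.getD_eq_getElem _ _ hi]; exact List.getElem_mem _

include hk hv in
theorem dd_lt : ∀ x < k + 2 + As.length * n, ∀ a < m + 2, dd k n m As x a < k + 2 + As.length * n := by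
  intro x hx a _
  by_cases h : x < k + 2
  · unfold dd; split_ifs <;> omega
  · obtain ⟨i, hi, q, hq, rfl⟩ := decomp (not_lt.1 h) hx
    have h1 := hv _ (getD_mem hi)
    have h2 : (i + 1) * n ≤ As.length * n := Nat.mul_le_mul_right _ hi
    rw [dd_st hq hk]
    split_ifs with g1 g2 g3
    · have := h1.2 q hq a g1; simp only at this; nlinarith
    · have := h1.1; simp only at this; nlinarith
    · omega
    · omega

include hk hv in
theorem run_in {i : ℕ} (hi : i < As.length) (u : List ℕ) : (∀ a ∈ u, a < m) → ∀ q < n,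
    u.foldl (dd k n m As) (k + 2 + (i * n + q)) =
      k + 2 + (i * n + u.foldl (dl (As.getD i a0).1) q) ∧ u.foldl (dl (As.getD i a0).1) q < n := by
  induction u with
  | nil => intro _ q hq; exact ⟨rfl, hq⟩
  | cons a u ih =>
    intro hu q hq
    have ha := hu a List.mem_cons_self
    simp only [List.foldl_cons]
    rw [dd_st hq hk, if_pos ha]
    exact ih (fun b hb => hu b (List.mem_cons_of_mem _ hb)) _ ((hv _ (getD_mem hi)).2 q hq a ha)

theorem run_fix {x : ℕ} (hx : x = 0 ∨ (4 ≤ x ∧ x < k + 2)) (u : List ℕ) :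
    u.foldl (dd k n m As) x = x := by
  induction u with
  | nil => rfl
  | cons a u ih =>
    have : dd k n m As x a = x := by unfold dd; split_ifs <;> omega
    rw [List.foldl_cons, this, ih]

theorem run_two (u : List ℕ) (hu : ∀ a ∈ u, a ≠ m + 1) : u.foldl (dd k n m As) 2 = 2 := by
  induction u with
  | nil => rfl
  | cons a u ih =>
    have : dd k n m As 2 a = 2 := by simp [dd, hu a List.mem_cons_self]
    rw [List.foldl_cons, this, ih (fun b hb => hu b (List.mem_cons_of_mem _ hb))]

include hk in
theorem to_two (u : List ℕ) : ∀ x, u.foldl (dd k n m As) x = 2 → ∀ a ∈ u, a ≠ m + 1 := by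
  induction u using List.reverseRecOn with
  | nil => simp
  | append_singleton u b ih =>
    intro x h a ha
    simp only [List.foldl_append, List.foldl_cons, List.foldl_nil] at h
    have : u.foldl (dd k n m As) x = 2 ∧ b ≠ m + 1 := by
      generalize u.foldl (dd k n m As) x = y at h
      unfold dd at h; split_ifs at h <;> omega
    rcases List.mem_append.1 ha with h' | h'
    · exact ih x this.1 a h'
    · rw [List.mem_singleton.1 h']; exact this.2

include hk hv in
theorem strip (v : List ℕ) : (∀ a ∈ v, a < m + 1) → ∃ u : List ℕ, (∀ a ∈ u, a < m) ∧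
    ∀ i < As.length, v.foldl (dd k n m As) (k + 2 + (i * n + (As.getD i a0).2.1)) =
      k + 2 + (i * n + u.foldl (dl (As.getD i a0).1) (As.getD i a0).2.1) := by
  induction v using List.reverseRecOn with
  | nil => intro _; exact ⟨[], by simp, fun _ _ => rfl⟩
  | append_singleton v b ih =>
    intro h
    obtain ⟨u, hu, e⟩ := ih (fun a ha => h a (by simp [ha]))
    have hb := h b (by simp)
    by_cases g : b < m
    · refine ⟨u ++ [b], ?_, fun i hi => ?_⟩
      · intro a ha
        rcases List.mem_append.1 ha with h' | h'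
        · exact hu a h'
        · rw [List.mem_singleton.1 h']; exact g
      · simp only [List.foldl_append, List.foldl_cons, List.foldl_nil, e i hi]
        rw [dd_st (run_in hk hv hi u hu _ (hv _ (getD_mem hi)).1).2 hk, if_pos g]
    · refine ⟨[], by simp, fun i hi => ?_⟩
      simp only [List.foldl_append, List.foldl_cons, List.foldl_nil, e i hi]
      rw [dd_st (run_in hk hv hi u hu _ (hv _ (getD_mem hi)).1).2 hk, if_neg g, if_pos (by omega)]

end

theorem correct {k : ℕ} (hk : 2 ≤ k) (y : ℕ × ℕ × List Aut) (hv : DVal y) :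
    DFAI y ↔ ReachSub k (red k y) := by
  obtain ⟨n, m, As⟩ := y
  have hrun : ∀ w : List ℕ, (∀ a ∈ w, a < m + 2) → ∀ q < k + 2 + As.length * n,
      w.foldl (delta (mkT (k + 2 + As.length * n) (m + 2) (dd k n m As))) q =
        w.foldl (dd k n m As) q := fun w hw q hq => run_mkT _ (dd_lt hk hv) w hw q hq
  have hP : ∀ p, p ∈ 0 :: 1 :: (List.range (k - 2)).map (· + 4) ↔
      p = 0 ∨ p = 1 ∨ (4 ≤ p ∧ p < k + 2) := by
    intro p
    simp only [List.mem_cons, List.mem_map, List.mem_range]
    refine or_congr Iff.rfl (or_congr Iff.rfl ⟨?_, fun h => ⟨p - 4, by omega, by omega⟩⟩)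
    rintro ⟨a, h, rfl⟩; omega
  simp only [DFAI, ReachSub, red, hP]
  constructor
  · rintro ⟨u, hu, hA⟩
    have hw : ∀ a ∈ m :: (u ++ [m + 1]), a < m + 2 := by
      intro a ha
      simp only [List.mem_cons, List.mem_append, List.not_mem_nil, or_false] at ha
      rcases ha with rfl | h | rfl
      · omega
      · have := hu a h; omega
      · omega
    refine ⟨fun q hq a ha => ?_, ?_, by simp; omega, fun p hp => by omega, m :: (u ++ [m + 1]), hw,
      fun p => ?_⟩
    · have := dd_lt hk hv q hq a ha
      exact (dl_mkT _ hq ha).trans_lt this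
    · simp only [List.nodup_cons, List.mem_cons, List.mem_map, List.mem_range]
      refine ⟨by simp, by simp, List.Nodup.map (fun a b h => by simpa using h) List.nodup_range⟩
    · have e2 : (m :: (u ++ [m + 1])).foldl (dd k n m As) 2 = 1 := by
        simp only [List.foldl_cons, List.foldl_append, List.foldl_nil]
        have : dd k n m As 2 m = 2 := by simp [dd]
        rw [this, run_two u (fun a ha => by have := hu a ha; omega)]
        simp [dd]
      constructor
      · rintro (rfl | rfl | h)
        · exact ⟨0, by omega, by rw [hrun _ hw _ (by omega), run_fix (Or.inl rfl)]⟩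
        · exact ⟨2, by omega, by rw [hrun _ hw _ (by omega), e2]⟩
        · exact ⟨p, by omega, by rw [hrun _ hw _ (by omega), run_fix (Or.inr h)]⟩
      · rintro ⟨q, hq, rfl⟩
        rw [hrun _ hw _ hq]
        by_cases h : q < k + 2
        · by_cases h2 : q = 2
          · rw [h2, e2]; simp
          · by_cases h4 : q < 4
            · left
              have : dd k n m As q m = 0 := by simp [dd, h2, h4]
              rw [List.foldl_cons, this, run_fix (Or.inl rfl)]
            · rw [run_fix (Or.inr ⟨by omega, h⟩)]; omega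
        · left
          obtain ⟨i, hi, s, hs, rfl⟩ := decomp (not_lt.1 h) hq
          have g := run_in hk hv hi u hu _ (hv _ (getD_mem hi)).1
          simp only [List.foldl_cons, List.foldl_append, List.foldl_nil]
          rw [dd_st hs hk, if_neg (by omega), if_pos rfl, g.1, dd_st g.2 hk, if_neg (by omega),
            if_neg (by omega), if_pos (hA _ (getD_mem hi))]
  · rintro ⟨-, -, -, -, w, hw, h⟩
    obtain ⟨q, hq, e⟩ := (h 1).1 (by simp)
    rw [hrun _ hw _ hq] at e
    rcases List.eq_nil_or_concat' w with rfl | ⟨v, b, rfl⟩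
    · have := (h 2).2 ⟨2, by omega, rfl⟩
      omega
    · simp only [List.foldl_append, List.foldl_cons, List.foldl_nil] at e
      have g : v.foldl (dd k n m As) q = 2 ∧ b = m + 1 := by
        generalize v.foldl (dd k n m As) q = y at e
        unfold dd at e; split_ifs at e <;> omega
      have g2 := to_two hk v q g.1
      obtain ⟨u, hu, e2⟩ := strip hk hv v (fun a ha => by
        have := hw a (by simp [ha]); have := g2 a ha; omega)
      refine ⟨u, hu, fun A hA => ?_⟩
      obtain ⟨i, hi, rfl⟩ := List.getElem_of_mem hA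
      rw [← List.getD_eq_getElem _ a0 hi]
      have h0 := (hv _ (getD_mem hi)).1
      have h2 : (i + 1) * n ≤ As.length * n := Nat.mul_le_mul_right _ hi
      have h3 : k + 2 + (i * n + (As.getD i a0).2.1) < k + 2 + As.length * n := by
        simp only at h0; nlinarith
      have := (h _).2 ⟨_, h3, rfl⟩
      rw [hrun _ hw _ h3] at this
      simp only [List.foldl_append, List.foldl_cons, List.foldl_nil, e2 i hi] at this
      rw [dd_st (run_in hk hv hi u hu _ h0).2 hk, g.2, if_neg (by omega), if_neg (by omega)] at this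
      by_contra hn
      rw [if_neg hn] at this
      omega

theorem result : ∀ k : ℕ, 2 ≤ k → PSPACEHard (ReachSub k) := by
  intro k hk
  have := (hard_DFAI.red (Val' := fun _ => True) (red k) (red_pt k)
    (fun y hv => ⟨trivial, correct hk y hv⟩)).pspaceHard
  simpa using this

end Pool.Agent.Results.MP_76b05e_lc.PspaceHard
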